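import Pool.Agent.U161.DG.Fac
import Pool.Agent.U161.DG.Det

set_option autoImplicit false

/-!
# Finitely many moments determine complex discrete Gaussians in every dimension (Q2)

Proof. Let `p` be a discrete Gaussian and `L` the functional `f ↦ ∑ f(n) p(n)` on the polynomials in
`g` variables. By the parallelogram identity `p(n) p(m) = a(n + m) b(n - m)`, and `n + m` and `n - m`
are only linked by their parity. So the bilinear form `(A, Q) ↦ (L ⊗ L)(A(x + y) Q(x - y))` has rank at
most `2 ^ g`, and for every coordinate `i` there are `J ≤ 2 ^ g` and an even polynomial
`Q = t ^ (2 J) + ∑_{j < J} c_j t ^ (2 j)` with `(L ⊗ L)(A(x + y) Q(x_i - y_i)) = 0` for all `A`. We have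
`J > 0`, as `L(1) = 1`. For `A = x ^ γ` this expresses the moment of order `γ + 2 J e_i` as a polynomial
in moments of smaller order and in the `c_j`. Hence all moments are universal polynomials (depending on
the numbers `J` only) in the moments `m_α` with `α_i < 2 J_i` and the coefficients `c`. So the ideal of
the coincidences of the moments of two such sequences is an ideal of a polynomial ring in finitely
many variables, and is generated by the coincidences up to some order `d`. As there are finitely many
possibilities for the `J`, there is a common `d`. Finally the moments of all orders determine the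
Fourier series `∑ p(n) exp(2 π i n x)`.
-/

namespace Pool.Agent.Results.MP_e16cda_ag.FiniteOrderDetermines

open Pool.Agent.U161.DG

/-- For every dimension `g` there is an integer `d` such that the moments up to order `d` determine the
complex discrete Gaussians in dimension `g`: if `(u, B)` and `(u', B')` are two parameters, both `u` and
`B` being arbitrary, and all the moments of order at most `d` agree, then the two discrete Gaussians are
equal. -/
theorem result (g : ℕ) : ∃ d : ℕ, MomentsDetermine g d := by
  obtain ⟨d, hd⟩ := exists_bound_all g (2 ^ g)
  refine ⟨d, fun u B u' B' hB hB' hθ hθ' h => ?_⟩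
  obtain ⟨J, c, hJ, hc⟩ := exists_relations hB hθ
  obtain ⟨J', c', hJ', hc'⟩ := exists_relations hB' hθ'
  have h1 := hd J J' _ _ c c' hJ hJ' hc hc' h
  exact eq_of_moments hB hB' fun α => congrFun h1 α

end Pool.Agent.Results.MP_e16cda_ag.FiniteOrderDetermines
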